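import Pool.Agent.W978.QP.Stm

set_option autoImplicit false

namespace Pool.Agent.W641.QP

open Pool.Agent.W978.QP
open Pool.Agent.W978.QN (nm bx ct cp mnr wv Prim)

theorem bez (v : Fin 3 → ℤ) : ∃ u : Fin 3 → ℤ, ∑ k, u k * v k = (ct v : ℤ) := by
  have h1 := Int.gcd_eq_gcd_ab (v 0) (v 1)
  have h2 := Int.gcd_eq_gcd_ab ((Int.gcd (v 0) (v 1) : ℕ) : ℤ) (v 2)
  refine ⟨![Int.gcdA (v 0) (v 1) * Int.gcdA ((Int.gcd (v 0) (v 1) : ℕ) : ℤ) (v 2),
    Int.gcdB (v 0) (v 1) * Int.gcdA ((Int.gcd (v 0) (v 1) : ℕ) : ℤ) (v 2),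
    Int.gcdB ((Int.gcd (v 0) (v 1) : ℕ) : ℤ) (v 2)], ?_⟩
  have h3 : ((ct v : ℕ) : ℤ) = ((Int.gcd ((Int.gcd (v 0) (v 1) : ℕ) : ℤ) (v 2) : ℕ) : ℤ) := by
    simp only [ct, Int.gcd, Int.natAbs_natCast]
  rw [h3, h2, Fin.sum_univ_three]
  simp only [Matrix.cons_val_zero, Matrix.cons_val_one, Matrix.cons_val]
  linear_combination (-(Int.gcdA ((Int.gcd (v 0) (v 1) : ℕ) : ℤ) (v 2))) * h1

def phi (x y : Fin 3 → ℤ) (g : ℕ) : (Fin 3 → ZMod g) →+ ZMod g × ZMod g where
  toFun r := (∑ k, (x k : ZMod g) * r k, ∑ k, (y k : ZMod g) * r k)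
  map_zero' := by simp
  map_add' := by
    intro r s
    simp only [Pi.add_apply, mul_add, Finset.sum_add_distrib, Prod.mk_add_mk]

def psi (e g : ℕ) : ZMod g × ZMod g →+ ZMod g × ZMod g where
  toFun p := ((e : ZMod g) * p.1, (e : ZMod g) * p.2)
  map_zero' := by simp
  map_add' := by
    intro r s
    simp only [Prod.fst_add, Prod.snd_add, mul_add, Prod.mk_add_mk]

theorem rng (x y : Fin 3 → ℤ) (g : ℕ) : (psi (ct (cr x y)) g).range ≤ (phi x y g).range := by
  obtain ⟨u, hu⟩ := bez (cr x y)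
  rintro _ ⟨⟨s, t⟩, rfl⟩
  have hu' : ((ct (cr x y) : ℕ) : ZMod g) = ∑ k, (u k : ZMod g) * ((cr x y k : ℤ) : ZMod g) := by
    have := congrArg (Int.cast : ℤ → ZMod g) hu
    push_cast at this
    exact this.symm
  refine ⟨fun k => s * ((cr y u k : ℤ) : ZMod g) + t * ((cr u x k : ℤ) : ZMod g), ?_⟩
  unfold phi psi
  simp only [AddMonoidHom.coe_mk, ZeroHom.coe_mk]
  rw [hu']
  simp only [Fin.sum_univ_three, cr, Matrix.cons_val_zero, Matrix.cons_val_one, Matrix.cons_val]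
  push_cast
  refine Prod.ext ?_ ?_
  · simp only
    ring
  · simp only
    ring

theorem card_ker_psi (e g : ℕ) (hg : 1 ≤ g) :
    Nat.card (psi e g).ker ≤ (Nat.gcd g e) ^ 2 := by
  have : NeZero g := ⟨by omega⟩
  have h0 : 0 < Nat.gcd g e := Nat.gcd_pos_of_pos_left _ hg
  have h1 : ∀ s : ZMod g, (e : ZMod g) * s = 0 → (Nat.gcd g e) • s = 0 := by
    intro s hs
    have hb := Nat.gcd_eq_gcd_ab g e
    have hb' : ((Nat.gcd g e : ℕ) : ZMod g) = ((Nat.gcdB g e : ℤ) : ZMod g) * (e : ZMod g) := by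
      have := congrArg (Int.cast : ℤ → ZMod g) hb
      push_cast at this
      rw [this]
      simp [mul_comm]
    rw [nsmul_eq_mul, hb', mul_assoc, hs, mul_zero]
  let T : Finset (ZMod g) := Finset.univ.filter (fun s => (Nat.gcd g e) • s = 0)
  have hT : T.card ≤ Nat.gcd g e := IsAddCyclic.card_nsmul_eq_zero_le h0
  have h2 : Nat.card (psi e g).ker ≤ Nat.card (T ×ˢ T : Finset (ZMod g × ZMod g)) := by
    refine Nat.card_le_card_of_injective
      (fun p : (psi e g).ker => (⟨p.1, ?_⟩ : (T ×ˢ T : Finset (ZMod g × ZMod g)))) ?_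
    · have hp := p.2
      rw [AddMonoidHom.mem_ker] at hp
      unfold psi at hp
      simp only [AddMonoidHom.coe_mk, ZeroHom.coe_mk] at hp
      have ha := congrArg Prod.fst hp
      have hb := congrArg Prod.snd hp
      simp only [Prod.fst_zero, Prod.snd_zero] at ha hb
      rw [Finset.mem_product, Finset.mem_filter, Finset.mem_filter]
      exact ⟨⟨Finset.mem_univ _, h1 _ ha⟩, ⟨Finset.mem_univ _, h1 _ hb⟩⟩
    · intro p q hpq
      apply Subtype.ext
      have h := congrArg (fun z : (T ×ˢ T : Finset (ZMod g × ZMod g)) => z.1) hpq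
      exact h
  have h3 : Nat.card (T ×ˢ T : Finset (ZMod g × ZMod g)) = T.card * T.card := by
    rw [Nat.card_eq_fintype_card, Fintype.card_coe, Finset.card_product]
  rw [h3] at h2
  calc _ ≤ T.card * T.card := h2
    _ ≤ Nat.gcd g e * Nat.gcd g e := Nat.mul_le_mul hT hT
    _ = _ := (sq _).symm

theorem card_ker_mul {A B : Type*} [AddCommGroup A] [AddCommGroup B] (f : A →+ B) :
    Nat.card f.range * Nat.card f.ker = Nat.card A := by
  rw [AddSubgroup.card_eq_card_quotient_mul_card_addSubgroup f.ker,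
    Nat.card_congr (QuotientAddGroup.quotientKerEquivRange f).toEquiv]

theorem kill (x y : Fin 3 → ℤ) (g K n : ℕ)
    (hD : ∀ d : ℤ, (∀ k, d ∣ x k) → (∀ k, d ∣ y k) → d ∣ (K : ℤ))
    (hn : ∀ v ∈ (phi x y g).range, n • v ∈ (psi (ct (cr x y)) g).range) :
    ((Nat.gcd g (ct (cr x y)) : ℕ) : ℤ) ∣ (n : ℤ) * K := by
  set e := ct (cr x y) with he
  set h := Nat.gcd g e with hh
  have hg : (h : ℤ) ∣ (g : ℤ) := by exact_mod_cast Nat.gcd_dvd_left g e
  have hee : (h : ℤ) ∣ (e : ℤ) := by exact_mod_cast Nat.gcd_dvd_right g e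
  have key : ∀ (z : ℤ) (s : ZMod g), (e : ZMod g) * s = (n : ZMod g) * (z : ZMod g) →
      (h : ℤ) ∣ (n : ℤ) * z := by
    intro z s hs
    have h1 : ∃ s' : ℤ, (s' : ZMod g) = s := ZMod.intCast_surjective s
    obtain ⟨s', rfl⟩ := h1
    have h2 : (((e : ℤ) * s' - (n : ℤ) * z : ℤ) : ZMod g) = 0 := by
      push_cast
      rw [hs, sub_self]
    rw [ZMod.intCast_zmod_eq_zero_iff_dvd] at h2
    have h3 : (h : ℤ) ∣ (e : ℤ) * s' - (n : ℤ) * z := hg.trans h2
    have h4 : (h : ℤ) ∣ (e : ℤ) * s' := Dvd.dvd.mul_right hee _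
    have h5 := Int.dvd_sub h4 h3
    have h6 : (e : ℤ) * s' - ((e : ℤ) * s' - (n : ℤ) * z) = (n : ℤ) * z := by ring
    rwa [h6] at h5
  have hx : ∀ k, (h : ℤ) ∣ (n : ℤ) * x k ∧ (h : ℤ) ∣ (n : ℤ) * y k := by
    intro k
    obtain ⟨⟨s, t⟩, hst⟩ := hn (phi x y g (Pi.single k 1)) ⟨_, rfl⟩
    have h1 : phi x y g (Pi.single k 1) = ((x k : ZMod g), (y k : ZMod g)) := by
      unfold phi
      simp [Pi.single_apply]
    rw [h1] at hst
    have ha := congrArg Prod.fst hst
    have hb := congrArg Prod.snd hst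
    unfold psi at ha hb
    simp only [AddMonoidHom.coe_mk, ZeroHom.coe_mk, Prod.smul_mk, nsmul_eq_mul] at ha hb
    exact ⟨key _ _ ha, key _ _ hb⟩
  have hgx : (h : ℤ) ∣ (n : ℤ) * Finset.univ.gcd x := by
    have h1 : (h : ℤ) ∣ Finset.univ.gcd (fun k => (n : ℤ) * x k) :=
      Finset.dvd_gcd (fun k _ => (hx k).1)
    rw [Finset.gcd_mul_left] at h1
    have h2 : normalize (n : ℤ) = (n : ℤ) := Int.normalize_of_nonneg (by positivity)
    rwa [h2] at h1
  have hgy : (h : ℤ) ∣ (n : ℤ) * Finset.univ.gcd y := by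
    have h1 : (h : ℤ) ∣ Finset.univ.gcd (fun k => (n : ℤ) * y k) :=
      Finset.dvd_gcd (fun k _ => (hx k).2)
    rw [Finset.gcd_mul_left] at h1
    have h2 : normalize (n : ℤ) = (n : ℤ) := Int.normalize_of_nonneg (by positivity)
    rwa [h2] at h1
  have hb := Int.gcd_eq_gcd_ab (Finset.univ.gcd x) (Finset.univ.gcd y)
  have hDK : ((Int.gcd (Finset.univ.gcd x) (Finset.univ.gcd y) : ℕ) : ℤ) ∣ (K : ℤ) := by
    apply hD
    · intro k
      exact (Int.gcd_dvd_left _ _).trans (Finset.gcd_dvd (Finset.mem_univ k))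
    · intro k
      exact (Int.gcd_dvd_right _ _).trans (Finset.gcd_dvd (Finset.mem_univ k))
  have hn1 : (h : ℤ) ∣ (n : ℤ) * ((Int.gcd (Finset.univ.gcd x) (Finset.univ.gcd y) : ℕ) : ℤ) := by
    rw [hb, mul_add, ← mul_assoc, ← mul_assoc]
    exact dvd_add (Dvd.dvd.mul_right hgx _) (Dvd.dvd.mul_right hgy _)
  exact hn1.trans (mul_dvd_mul_left _ hDK)

theorem cls : S_CLS := by
  intro K x y g hg hK _ hD
  have : NeZero g := ⟨by omega⟩
  have hker : Nat.card {r : Fin 3 → ZMod g // ∑ k, (x k : ZMod g) * r k = 0 ∧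
      ∑ k, (y k : ZMod g) * r k = 0} = Nat.card (phi x y g).ker := by
    refine Nat.card_congr (Equiv.subtypeEquivRight ?_)
    intro r
    rw [AddMonoidHom.mem_ker]
    unfold phi
    simp only [AddMonoidHom.coe_mk, ZeroHom.coe_mk, Prod.mk_eq_zero]
  rw [hker]
  set e := ct (cr x y) with he
  set h := Nat.gcd g e with hh
  have h0 : 0 < h := Nat.gcd_pos_of_pos_left _ hg
  have hle := rng x y g
  set G := (phi x y g).range with hG
  set E := (psi e g).range with hE
  let H : AddSubgroup G := E.addSubgroupOf G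
  have hn := kill x y g K H.index hD (by
    intro v hv
    have := H.nsmul_index_mem (⟨v, hv⟩ : G)
    rw [AddSubgroup.mem_addSubgroupOf] at this
    exact this)
  have hcH : Nat.card H = Nat.card E := Nat.card_congr (AddSubgroup.addSubgroupOfEquivOfLe hle).toEquiv
  have h1 : Nat.card H * H.index = Nat.card G := H.card_mul_index
  have h2 := card_ker_mul (phi x y g)
  have h3 := card_ker_mul (psi e g)
  have h4 := card_ker_psi e g hg
  have h5 : Nat.card (Fin 3 → ZMod g) = g ^ 3 := by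
    simp [Nat.card_eq_fintype_card, ZMod.card]
  have h6 : Nat.card (ZMod g × ZMod g) = g ^ 2 := by
    simp [Nat.card_eq_fintype_card, ZMod.card, sq]
  rw [h5] at h2
  rw [h6] at h3
  rw [hcH] at h1
  have hidx : 0 < H.index := Nat.pos_of_ne_zero AddSubgroup.index_ne_zero_of_finite
  have h7 : h ≤ H.index * K := by
    have h8 : h ∣ H.index * K := by exact_mod_cast hn
    exact Nat.le_of_dvd (Nat.mul_pos hidx (by omega)) h8
  change Nat.card G * Nat.card (phi x y g).ker = g ^ 3 at h2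
  change Nat.card E * Nat.card (psi e g).ker = g ^ 2 at h3
  change Nat.card (psi e g).ker ≤ h ^ 2 at h4
  generalize Nat.card G = a at *
  generalize Nat.card (phi x y g).ker = b at *
  generalize Nat.card E = c at *
  generalize Nat.card (psi e g).ker = d at *
  generalize H.index = n at *
  -- c * n = a, a * b = g^3, c * d = g^2, d ≤ h^2, h ≤ n * K; want b ≤ K * g * h
  have hg2 : g ^ 2 ≤ c * h ^ 2 := by rw [← h3]; exact Nat.mul_le_mul_left _ h4
  have h9 : b * n * g ^ 2 ≤ g * h ^ 2 * g ^ 2 := by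
    calc b * n * g ^ 2 ≤ b * n * (c * h ^ 2) := Nat.mul_le_mul_left _ hg2
      _ = (c * n * b) * h ^ 2 := by ring
      _ = g ^ 3 * h ^ 2 := by rw [h1, h2]
      _ = _ := by ring
  have h10 : b * n ≤ g * h ^ 2 := Nat.le_of_mul_le_mul_right h9 (by positivity)
  have h11 : b * h ≤ (K * g * h) * h := by
    calc b * h ≤ b * (n * K) := Nat.mul_le_mul_left _ h7
      _ = (b * n) * K := by ring
      _ ≤ (g * h ^ 2) * K := Nat.mul_le_mul_right _ h10
      _ = _ := by ring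
  exact Nat.le_of_mul_le_mul_right h11 h0

end Pool.Agent.W641.QP
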